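import Mathlib

set_option autoImplicit false

open Set Filter Topology TopologicalSpace

namespace Pool.Agent.Results.MP_9b97c3_lc.No

/-- the `G`-jump of a relation -/
def jump (G : Type) [Group G] {X : Type} (E : X → X → Prop) (α β : G → X) : Prop :=
  ∃ g : G, ∀ h : G, E (α (g⁻¹ * h)) (β h)

section
variable {X G : Type} [Group G]

def sh (g : G) (a : G → X) : G → X := fun h => a (g⁻¹ * h)

theorem sh_sh (g g' : G) (a : G → X) : sh g (sh g' a) = sh (g * g') a := by
  funext h; simp [sh, mul_assoc]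

theorem sh_one (a : G → X) : sh (1 : G) a = a := by funext h; simp [sh]

variable [TopologicalSpace X]

theorem sh_cont (g : G) : Continuous (sh g : (G → X) → G → X) :=
  continuous_pi fun _ => continuous_apply _

theorem box {ι Y : Type} [TopologicalSpace Y] {V : Set (ι → Y)} (hV : IsOpen V) {v : ι → Y}
    (hv : v ∈ V) : ∃ I : Finset ι, ∀ a, (∀ i ∈ I, a i = v i) → a ∈ V := by
  obtain ⟨I, u, h1, h2⟩ := isOpen_pi_iff.1 hV v hv
  exact ⟨I, fun a ha => h2 fun i hi => by rw [ha i hi]; exact (h1 i hi).2⟩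

theorem orbit_res [Infinite G] [Countable G] [SecondCountableTopology X] :
    {a : G → X | Dense (range fun g : G => sh g a)} ∈ residual (G → X) := by
  classical
  have hb := isBasis_countableBasis (G → X)
  have : ∀ V ∈ countableBasis (G → X), {a : G → X | ∃ g : G, sh g a ∈ V} ∈ residual (G → X) := by
    intro V hV
    have ho := hb.isOpen hV
    obtain ⟨v, hv⟩ := nonempty_of_mem_countableBasis hV
    refine residual_of_dense_open ?_ (dense_iff_inter_open.2 fun V' ho' ⟨v', hv'⟩ => ?_)
    · rw [setOf_exists]; exact isOpen_iUnion fun g => ho.preimage (sh_cont g)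
    · obtain ⟨I, hI⟩ := box ho hv
      obtain ⟨J, hJ⟩ := box ho' hv'
      obtain ⟨g, hg⟩ := Infinite.exists_notMem_finset ((I ×ˢ J).image fun p => p.1 * p.2⁻¹)
      refine ⟨fun h => if h ∈ J then v' h else v (g * h), hJ _ fun i hi => if_pos hi,
        g, hI _ fun i hi => ?_⟩
      have : g⁻¹ * i ∉ J := fun k =>
        hg (Finset.mem_image.2 ⟨(i, g⁻¹ * i), Finset.mem_product.2 ⟨hi, k⟩, by simp⟩)
      simp [sh, this]
  filter_upwards [(countable_bInter_mem (countable_countableBasis _)).2 this] with a ha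
  refine hb.dense_iff.2 fun V hV _ => ?_
  obtain ⟨g, hg⟩ := mem_iInter₂.1 ha V hV
  exact ⟨_, hg, g, rfl⟩

omit [Group G] in
theorem ne_dense [Infinite G] [Nontrivial X] (c : G → X) : Dense {b : G → X | b ≠ c} := by
  classical
  refine dense_iff_inter_open.2 fun V ho ⟨v, hv⟩ => ?_
  obtain ⟨I, hI⟩ := box ho hv
  obtain ⟨g, hg⟩ := Infinite.exists_notMem_finset I
  obtain ⟨x, hx⟩ := exists_ne (c g)
  refine ⟨Function.update v g x, hI _ fun i hi => Function.update_of_ne (by rintro rfl; exact hg hi) _ _,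
    fun e => hx ?_⟩
  rw [← e, Function.update_self]
end

theorem dense_prod {T W : Type} [TopologicalSpace T] [TopologicalSpace W] {P : T → W → Prop}
    (h : ∀ t, Dense {b | P t b}) : Dense {p : T × W | P p.1 p.2} := by
  refine dense_iff_inter_open.2 fun U ho ⟨p, hp⟩ => ?_
  obtain ⟨b, h1, h2⟩ := dense_iff_inter_open.1 (h p.1) _
    (ho.preimage (Continuous.prodMk_right p.1)) ⟨p.2, hp⟩
  exact ⟨(p.1, b), h1, h2⟩

theorem open_of_inv {A : Type} [TopologicalSpace A] {φ ψ : A → A} (h1 : Continuous φ)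
    (h2 : Continuous ψ) (e1 : ∀ a, ψ (φ a) = a) (e2 : ∀ a, φ (ψ a) = a) : IsOpenMap φ :=
  (Homeomorph.mk ⟨φ, ψ, e1, e2⟩ h1 h2).isOpenMap

/-- For equality on a Polish space with at least two points and countably infinite groups `G, H`,
the iterated jump is not Borel reducible to the `K`-jump, for any countable group `K`. -/
theorem result (X : Type) [TopologicalSpace X] [PolishSpace X] [Nontrivial X]
    (G H K : Type) [Group G] [Countable G] [Infinite G] [Group H] [Countable H] [Infinite H]
    [Group K] [Countable K] :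
    ¬ ∃ f : (H → G → X) → (K → X), @Measurable _ _ (borel _) (borel _) f ∧
      ∀ y y', jump H (jump G Eq) y y' ↔ jump K Eq (f y) (f y') := by
  classical
  rintro ⟨f, hf, hr⟩
  letI : TopologicalSpace G := ⊥
  haveI : DiscreteTopology G := ⟨rfl⟩
  borelize (H → G → X) (K → X) ((H → G → X) × (H → G))
  haveI : Nonempty X := inferInstance
  let Φ : (H → G → X) × (H → G) → H → G → X := fun p h => sh (p.2 h) (p.1 h)
  have shc : Continuous fun q : G × (G → X) => sh q.1 q.2 :=
    continuous_prod_of_discrete_left.2 fun g => sh_cont g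
  have shc' : ∀ {g : (H → G → X) × (H → G) → G} {a : (H → G → X) × (H → G) → G → X},
      Continuous g → Continuous a → Continuous fun t => sh (g t) (a t) :=
    fun hg ha => shc.comp (hg.prodMk ha)
  have invc : Continuous fun g : G => g⁻¹ := continuous_of_discreteTopology
  have Φc : Continuous Φ := continuous_pi fun h => shc'
    ((continuous_apply h).comp continuous_snd) ((continuous_apply h).comp continuous_fst)
  have Φo : IsOpenMap Φ := isOpenMap_fst.comp (open_of_inv (φ := fun p => (Φ p, p.2))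
    (ψ := fun p => (fun h => sh (p.2 h)⁻¹ (p.1 h), p.2)) (Φc.prodMk continuous_snd)
    ((continuous_pi fun h => shc' (invc.comp ((continuous_apply h).comp continuous_snd))
      ((continuous_apply h).comp continuous_fst)).prodMk continuous_snd)
    (fun p => by simp [Φ, sh_sh, sh_one]) (fun p => by simp [Φ, sh_sh, sh_one]))
  have hA : ∀ k : K, MeasurableSet {p | sh k (f p.1) = f (Φ p)} := fun k =>
    measurableSet_eq_fun ((sh_cont k).measurable.comp (hf.comp continuous_fst.measurable))
      (hf.comp Φc.measurable)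
  choose U hU hAU using fun k => (hA k).residualEq_isOpen
  obtain ⟨k, p₀, hp₀⟩ : ∃ k, (U k).Nonempty := by
    obtain ⟨p, hp⟩ := (dense_of_mem_residual ((eventually_countable_forall).2 hAU)).nonempty
    obtain ⟨k, hk⟩ := (hr p.1 (Φ p)).1 ⟨1, fun h => ⟨p.2 h, fun g => by simp [Φ, sh]⟩⟩
    exact ⟨k, p, (hp k).mp (funext hk)⟩
  obtain ⟨V, N, hV, hN, hv, hn, hVN⟩ := isOpen_prod_iff.1 (hU k) p₀.1 p₀.2 hp₀
  obtain ⟨S, hS⟩ := box hN hn
  obtain ⟨h₁, hh₁⟩ := Infinite.exists_notMem_finset S
  have hb := isBasis_countableBasis (K → X)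
  choose O hO hfO using fun B : countableBasis (K → X) =>
    (hf (hb.isOpen B.2).measurableSet).residualEq_isOpen
  haveI := (countable_countableBasis (K → X)).to_subtype
  have hC : {y | ∀ B : countableBasis (K → X), (f ⁻¹' B.1) y = O B y} ∈ residual (H → G → X) :=
    eventually_countable_forall.2 hfO
  let τ : G → (H → G → X) × (H → G) → (H → G → X) × (H → G) :=
    fun g p => (p.1, Function.update p.2 h₁ (g * p.2 h₁))
  have τc : ∀ g, Continuous (τ g) := fun g => continuous_fst.prodMk (continuous_snd.update _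
    ((continuous_of_discreteTopology (f := fun x => g * x)).comp
      ((continuous_apply h₁).comp continuous_snd)))
  have τo : ∀ g, IsOpenMap (τ g) := fun g => open_of_inv (τc g) (τc g⁻¹)
    (fun p => by simp [τ]) (fun p => by simp [τ])
  let u : (H → G → X) × (G → X) → H → G → X := fun q => Function.update q.1 h₁ q.2
  have uc : Continuous u := continuous_fst.update _ continuous_snd
  have wc : Continuous fun q : (H → G → X) × (G → X) => (u q, q.1 h₁) :=
    uc.prodMk ((continuous_apply h₁).comp continuous_fst)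
  have uo : IsOpenMap u := isOpenMap_fst.comp (open_of_inv wc wc
    (fun p => by simp [u]) (fun p => by simp [u]))
  have r1 := fun g => tendsto_residual_of_isOpenMap
    ((τc g).comp (continuous_fst (Y := G → X))) ((τo g).comp isOpenMap_fst) (hAU k)
  have r2 := fun g => tendsto_residual_of_isOpenMap
    (Φc.comp ((τc g).comp (continuous_fst (Y := G → X)))) (Φo.comp ((τo g).comp isOpenMap_fst)) hC
  have r3 := tendsto_residual_of_isOpenMap (uc.comp (Φc.prodMap continuous_id))
    (uo.comp (Φo.prodMap IsOpenMap.id)) hC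
  have r4 := tendsto_residual_of_isOpenMap
    ((continuous_apply h₁).comp (Φc.comp (continuous_fst (Y := G → X))))
    ((isOpenMap_eval h₁).comp (Φo.comp isOpenMap_fst)) (orbit_res (X := X) (G := G))
  have r5 : ∀ j : G × H, {q : ((H → G → X) × (H → G)) × (G → X) | q.2 ≠ sh j.1 (Φ q.1 j.2)} ∈
      residual _ := fun j => residual_of_dense_open (isOpen_ne_fun continuous_snd
        ((sh_cont _).comp ((continuous_apply _).comp (Φc.comp continuous_fst))))
        (dense_prod (P := fun t b => b ≠ sh j.1 (Φ t j.2)) fun t => ne_dense _)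
  have hd := dense_of_mem_residual (inter_mem (inter_mem (inter_mem (inter_mem
    (countable_iInter_mem.2 r1) (countable_iInter_mem.2 r2)) r3) r4) (countable_iInter_mem.2 r5))
  have ho : IsOpen {q : ((H → G → X) × (H → G)) × (G → X) |
      q.1.1 ∈ V ∧ ∀ h ∈ S, q.1.2 h = p₀.2 h} := by
    refine (hV.preimage (continuous_fst.comp continuous_fst)).inter ?_
    show IsOpen {q : ((H → G → X) × (H → G)) × (G → X) | ∀ h ∈ S, q.1.2 h = p₀.2 h}
    rw [show {q : ((H → G → X) × (H → G)) × (G → X) | ∀ h ∈ S, q.1.2 h = p₀.2 h} =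
      ⋂ h ∈ S, {q | q.1.2 h = p₀.2 h} by ext; simp]
    exact isOpen_biInter_finset fun h _ => (isOpen_discrete ({p₀.2 h} : Set G)).preimage
      (f := fun q : ((H → G → X) × (H → G)) × (G → X) => q.1.2 h)
      ((continuous_apply h).comp (continuous_snd.comp continuous_fst))
  obtain ⟨⟨p, b⟩, ⟨q1, q2⟩, ⟨⟨⟨s1, s2⟩, s3⟩, s4⟩, s5⟩ := dense_iff_inter_open.1 hd _ ho
    ⟨(p₀, p₀.1 h₁), hv, fun _ _ => rfl⟩
  simp only [mem_iInter] at s1 s2 s5
  have e1 : ∀ g, sh k (f p.1) = f (Φ (τ g p)) := fun g => (s1 g).mpr (hVN ⟨q1, hS _ fun i hi => by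
    simp only [τ, Function.comp]
    rw [Function.update_of_ne (by rintro rfl; exact hh₁ hi)]; exact q2 i hi⟩)
  have e2 : ∀ g, Φ (τ g p) = u (Φ p, sh g (Φ p h₁)) := fun g => by
    funext h
    by_cases e : h = h₁
    · subst e; simp [Φ, τ, u, sh_sh]
    · simp [Φ, τ, u, e]
  have e3 : f (u (Φ p, b)) = sh k (f p.1) := by
    by_contra ne
    obtain ⟨B, hB, m1, m2⟩ := hb.exists_subset_of_mem_open (u := {sh k (f p.1)}ᶜ) ne
      isOpen_compl_singleton
    have m3 : u (Φ p, b) ∈ O ⟨B, hB⟩ := (s3 ⟨B, hB⟩).mp m1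
    obtain ⟨_, m4, g, rfl⟩ := dense_iff_inter_open.1 s4 _
      ((hO ⟨B, hB⟩).preimage (uc.comp (Continuous.prodMk_right (Φ p)))) ⟨b, m3⟩
    have m5 : Φ (τ g p) ∈ O ⟨B, hB⟩ := by rw [e2]; exact m4
    exact m2 ((s2 g ⟨B, hB⟩).mpr m5) (e1 g).symm
  have e4 : τ 1 p = p := by simp [τ]
  obtain ⟨h₀, hh⟩ := (hr (Φ p) (u (Φ p, b))).2 ⟨1, fun κ => by
    rw [e3, e1 1, e4]; simp⟩
  obtain ⟨g, hg⟩ := hh h₁
  refine s5 (g, h₀⁻¹ * h₁) (funext fun x => ?_)
  have := hg x
  simp only [u, Function.update_self] at this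
  exact this.symm

end Pool.Agent.Results.MP_9b97c3_lc.No
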